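import Pool.Agent.N110.CC.Stm

/-! Project CC (helper110): IND, joint eigenvectors with different weights are linearly independent. -/

set_option autoImplicit false

namespace Pool.Agent.N394.CC

open Pool.Agent.N110.CC

theorem leafIND (hSEP : S_SEP) : S_IND := by
  classical
  intro r ρ G T e he hG
  obtain ⟨v, hv⟩ := hSEP r (T.offDiag.image fun p => p.1 - p.2) (by
    intro h
    obtain ⟨p, hp, hp2⟩ := Finset.mem_image.1 h
    exact (Finset.mem_offDiag.1 hp).2.2 (sub_eq_zero.1 hp2))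
  refine Module.End.eigenvectors_linearIndependent' (G v)
    (fun ℓ : T => Real.exp ((ℓ : (Fin r → ℝ) →ₗ[ℝ] ℝ) (fun i => (v i : ℝ)))) ?_ _ ?_
  · intro a b hab
    by_contra hne
    have h1 : ((a : (Fin r → ℝ) →ₗ[ℝ] ℝ) - b) ∈ T.offDiag.image fun p => p.1 - p.2 :=
      Finset.mem_image.2 ⟨(a.1, b.1), Finset.mem_offDiag.2 ⟨a.2, b.2, fun h => hne (Subtype.ext h)⟩,
        rfl⟩
    have h2 := hv _ h1
    rw [LinearMap.sub_apply, sub_ne_zero] at h2
    exact h2 (Real.exp_injective hab)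
  · intro ℓ
    exact ⟨Module.End.mem_eigenspace_iff.2 (hG ℓ.1 ℓ.2 v), he ℓ.1 ℓ.2⟩

end Pool.Agent.N394.CC
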